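import Pool.Agent.Mg.Fc7a479.G0a902f

/-!
Definitions for the normal order of the greedy sum.
-/

set_option autoImplicit false

open Finset

noncomputable section

namespace Pool.Agent.MP_d228e7_nt.T

open Pool.Agent.MP_cebb75_nt Pool.Agent.MP_fdd1d3_nt N435e839e

/-- the product of Mertens -/
def VV (z : ℕ) : ℝ := ∏ p ∈ PP 0 z, bb p

/-- indicator of the integers without prime factor up to `z` -/
def ro (z m : ℕ) : ℝ := pt 0 (om (PP 0 z) 0 m)

/-- monotone weights between zero and one -/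
def Wt (t : ℕ) (w : ℕ → ℝ) : Prop :=
  (∀ b, b < t → 0 ≤ w b ∧ w b ≤ 1) ∧ ∀ b, b + 1 < t → w b ≤ w (b + 1)

/-- the weights of a dyadic block -/
def ww (j b : ℕ) : ℝ := 2 ^ j / (2 * 2 ^ j - b)

/-- the sum over a dyadic block -/
def blk (n j : ℕ) : ℝ := ∑ a ∈ Ioc (2 ^ j) (2 * 2 ^ j), hh n a

/-- the constant of Mertens -/
def eg : ℝ := Real.exp (-Real.eulerMascheroniConstant)

/-- second theorem of Mertens for the product, with constant `B` -/
def M2 (B C : ℝ) : Prop :=
  ∀ z : ℕ, 2 ≤ z → |-Real.log (VV z) - Real.log (Real.log z) - B| ≤ C / Real.log z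

/-- third theorem of Mertens with an error term -/
def Mert : Prop := ∃ C : ℝ, 0 ≤ C ∧ ∀ z : ℕ, 2 ≤ z → |VV z * Real.log z - eg| ≤ C / Real.log z

end Pool.Agent.MP_d228e7_nt.T
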